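import Mathlib
import Pool.Agent.Helper639.ForceCH
import Pool.Agent.R820.QCGuess

set_option autoImplicit false

namespace Pool.Agent.Results.MP_c54930_gt.UnderDiamond

open Pool.Agent.Helper639.ForceCH (Om OmegaOnePreserved DiamondHolds)

/-- `f` is quasicontinuous at each point. -/
def QuasiContinuous {X : Type} [TopologicalSpace X] (f : X → ℝ) : Prop :=
  ∀ x, ∀ U : Set X, IsOpen U → x ∈ U → ∀ ε > 0, ∃ W ⊆ U, IsOpen W ∧ W.Nonempty ∧
    ∀ y ∈ W, |f y - f x| < ε

/-- `Q_p(X, ℝ)`: the quasicontinuous functions with the topology of pointwise convergence. -/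
abbrev Qp (X : Type) [TopologicalSpace X] : Type := {f : X → ℝ // QuasiContinuous f}

/-- There is a coarser metrizable topology. -/
def Submetrizable (X : Type) [τ : TopologicalSpace X] : Prop :=
  ∃ τ' : TopologicalSpace X, τ ≤ τ' ∧ @TopologicalSpace.MetrizableSpace X τ'

/-- `C` is a closed unbounded subset of `ω₁` (the sentence named by `IsClubName`). -/
def IsClub (C : Om → Prop) : Prop :=
  (∀ a : Om, ∃ b : Om, a < b ∧ C b) ∧
    ∀ a : Om, (∃ b, b < a) → (∀ b : Om, b < a → ∃ c : Om, (b < c ∧ c < a) ∧ C c) → C a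

/-- Diamond: the sentence which `DiamondHolds P` says is forced, evaluated in the universe. -/
def Diamond : Prop :=
  ∃ A : Om → Om → Prop, ∀ S : Om → Prop, ∀ C : Om → Prop,
    IsClub C → ∃ a : Om, C a ∧ ∀ b : Om, b < a → (S b ↔ A a b)

/-- Some forcing notion forces that `ω₁` is preserved and diamond holds, and diamond implies that
there is an uncountable first-countable regular submetrizable space `X` (even Tychonoff, with a base
of clopen sets) such that `Q_p(X, ℝ)` is Fréchet-Urysohn. -/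
theorem result :
    (∃ (P : Type) (_ : Preorder P), Nonempty P ∧
      ∀ p : P, p ∈ OmegaOnePreserved P ∧ p ∈ DiamondHolds P) ∧
    (Diamond → ∃ (X : Type) (_ : TopologicalSpace X), T35Space X ∧ T3Space X ∧
      FirstCountableTopology X ∧ Submetrizable X ∧ Uncountable X ∧
      (∀ (U : Set X) (x : X), IsOpen U → x ∈ U → ∃ V, IsClopen V ∧ x ∈ V ∧ V ⊆ U) ∧
      FrechetUrysohnSpace (Qp X)) := by
  refine ⟨?_, fun hd => ?_⟩
  · obtain ⟨P, i, hn, h⟩ := Pool.Agent.Helper639.ForceCH.exists_forcing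
    exact ⟨P, i, hn, fun p => ⟨(h p).1, (h p).2.1⟩⟩
  · obtain ⟨X, τ, h1, h2, h3, h4, h5, h6⟩ := Pool.Agent.R820.QC.main hd
    exact ⟨X, τ, h1, inferInstance, h2, h3, h4, h5, h6⟩

end Pool.Agent.Results.MP_c54930_gt.UnderDiamond
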